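import Mathlib
import Pool.Agent.H19.RPProduct

/-! The lower bound `f_r(k) >= r^2 A / (9216 g log k)` from a gadget with parameters `g, K, A`, with an explicit
condition on the primes. -/

namespace H19RP

open Finset

theorem lower_param (g K P₀ : ℕ) (A : ℝ) (hg : 0 < g) (hK1 : 1 ≤ K) (hA0 : 0 < A) (r k : ℕ)
    (hr : 2 ≤ r) (hrk : r ≤ k) (hLA : A ≤ Real.log k)
    (hbigR : 32 * g * (P₀ + 5) * Real.log k ≤ A * r)
    (hgad : ∀ p : ℕ, P₀ ≤ p → p.Prime → ∀ [NeZero p], GadgetProp g K p (Real.exp (-A))) :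
    ∃ H : Finset (Fin r → ℕ), IntersectinglyCovered k H ∧
      (r : ℝ) ^ 2 * A / (9216 * g * Real.log k) ≤ tau H := by
  set ε : ℝ := Real.exp (-A) with hε
  have hgR : (0 : ℝ) < g := by exact_mod_cast hg
  have hεpos : 0 < ε := Real.exp_pos _
  have hε1 : ε ≤ 1 := by
    rw [hε]
    exact Real.exp_le_one_iff.mpr (by linarith)
  have hrR : (2 : ℝ) ≤ r := by exact_mod_cast hr
  have hkR : (r : ℝ) ≤ k := by exact_mod_cast hrk
  set L : ℝ := Real.log k with hL
  have hLpos : 0 < L := by linarith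
  set s' : ℕ := ⌊L / A⌋₊ + 1 with hs'
  have hs'pos : (0 : ℝ) < s' := by rw [hs']; positivity
  have hs'1 : L / A < s' := by
    rw [hs']; push_cast; exact Nat.lt_floor_add_one _
  have hs'2 : (s' : ℝ) ≤ 2 * L / A := by
    rw [hs']; push_cast
    have h1 : (⌊L / A⌋₊ : ℝ) ≤ L / A := Nat.floor_le (by positivity)
    have h2 : 1 ≤ L / A := by rw [le_div_iff₀ hA0]; linarith
    have h3 : 2 * L / A = L / A + L / A := by ring
    linarith
  set s : ℕ := 2 * s' with hs
  set N : ℕ := (r - 1) / (2 * g * s) with hN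
  have hgs : 0 < 2 * g * s := by
    have : 0 < s' := by omega
    positivity
  set n : ℕ := N / 2 with hn
  have hr1 : ((r - 1 : ℕ) : ℝ) = r - 1 := by
    rw [Nat.cast_sub (by omega)]; simp
  have hbig : (2 * (P₀ + 5) : ℕ) ≤ N := by
    rw [hN, Nat.le_div_iff_mul_le hgs]
    have h1 : ((2 * (P₀ + 5) * (2 * g * s) : ℕ) : ℝ) ≤ ((r - 1 : ℕ) : ℝ) := by
      rw [hr1]
      push_cast
      rw [hs]
      push_cast
      have h2 : (s' : ℝ) * A ≤ 2 * L := by
        rw [le_div_iff₀ hA0] at hs'2; exact hs'2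
      have h3 : 32 * g * (P₀ + 5) * L ≤ A * r := hbigR
      have h5 : A * (2 * (P₀ + 5) * (2 * g * (2 * s'))) ≤ A * (r - 1) := by
        have h6 : A * (2 * ((P₀ : ℝ) + 5) * (2 * g * (2 * s'))) = 8 * g * (P₀ + 5) * (s' * A) := by ring
        rw [h6]
        have h7 : 8 * (g : ℝ) * (P₀ + 5) * (s' * A) ≤ 8 * g * (P₀ + 5) * (2 * L) :=
          mul_le_mul_of_nonneg_left h2 (by positivity)
        have h8 : A * r ≤ 2 * (A * (r - 1)) := by nlinarith
        linarith
      exact le_of_mul_le_mul_left h5 hA0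
    exact_mod_cast h1
  have hnP : P₀ + 5 ≤ n := by omega
  obtain ⟨p, hp, hnp, hp2n⟩ := Nat.exists_prime_lt_and_le_two_mul n (by omega)
  have hne : NeZero p := ⟨hp.ne_zero⟩
  have hpN : p ≤ N := by omega
  have hpr : s * (2 * (p * g)) + 1 ≤ r := by
    have h1 : N * (2 * g * s) ≤ r - 1 := Nat.div_mul_le_self _ _
    have h2 : s * (2 * (p * g)) ≤ N * (2 * g * s) := by
      calc s * (2 * (p * g)) = p * (2 * g * s) := by ring
        _ ≤ N * (2 * g * s) := Nat.mul_le_mul_right _ hpN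
    omega
  have hG : GadgetProp g K p ε := hgad p (by omega) hp
  have hkε : (k : ℝ) * ε ^ s' < 1 := by
    have hkpos : (0 : ℝ) < k := by linarith
    have h1 : (k : ℝ) = Real.exp L := (Real.exp_log hkpos).symm
    rw [h1, hε, ← Real.exp_nat_mul, ← Real.exp_add]
    rw [Real.exp_lt_one_iff]
    have h2 : L < s' * A := by
      rw [div_lt_iff₀ hA0] at hs'1; exact hs'1
    linarith
  obtain ⟨H, hH, htau⟩ := product_constr g K p s s' (r - 1 - s * (2 * (p * g))) k r ε hεpos.le hε1 hG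
    hK1 (by omega) (by omega) hkε
  refine ⟨H, hH, ?_⟩
  -- numerical estimate
  have hpR : (r : ℝ) / (16 * g * s') ≤ p := by
    have h1 : N + 1 ≤ 2 * p := by omega
    have h2 : r - 1 < (N + 1) * (2 * g * s) := by
      have := Nat.lt_div_mul_add (a := r - 1) hgs
      rw [add_mul, one_mul]
      exact this
    have h3 : ((r - 1 : ℕ) : ℝ) < ((2 * p * (2 * g * s) : ℕ) : ℝ) := by
      have : r - 1 < 2 * p * (2 * g * s) := lt_of_lt_of_le h2 (Nat.mul_le_mul_right _ h1)
      exact_mod_cast this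
    rw [hr1] at h3
    push_cast at h3
    rw [hs] at h3
    push_cast at h3
    rw [div_le_iff₀ (by positivity)]
    nlinarith
  have htau2 : (s' : ℝ) * (g * (p : ℝ) ^ 2) / 18 ≤ tau H := by
    have h0 : 18 ≤ g * p ^ 2 := by
      have h6 : 6 ≤ p := by omega
      have h7 : 36 ≤ p ^ 2 := by nlinarith
      nlinarith
    have h1 : s' * (g * p ^ 2) ≤ 18 * tau H := by
      have h2 : s' * (g * p ^ 2) + g * p ^ 2 ≤ (s - s' + 1) * (g * p ^ 2) := by
        calc s' * (g * p ^ 2) + g * p ^ 2 = (s' + 1) * (g * p ^ 2) := by ring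
          _ ≤ (s - s' + 1) * (g * p ^ 2) := Nat.mul_le_mul_right _ (by omega)
      omega
    have h2 : ((s' * (g * p ^ 2) : ℕ) : ℝ) ≤ ((18 * tau H : ℕ) : ℝ) := by exact_mod_cast h1
    push_cast at h2
    linarith
  refine le_trans ?_ htau2
  have h1 : ((r : ℝ) / (16 * g * s')) ^ 2 ≤ (p : ℝ) ^ 2 := pow_le_pow_left₀ (by positivity) hpR 2
  have h2 : (s' : ℝ) * (g * ((r : ℝ) / (16 * g * s')) ^ 2) / 18 ≤ (s' : ℝ) * (g * (p : ℝ) ^ 2) / 18 := by
    apply div_le_div_of_nonneg_right _ (by norm_num)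
    apply mul_le_mul_of_nonneg_left _ (by positivity)
    exact mul_le_mul_of_nonneg_left h1 (by positivity)
  refine le_trans ?_ h2
  have h3 : (s' : ℝ) * (g * ((r : ℝ) / (16 * g * s')) ^ 2) / 18 = (r : ℝ) ^ 2 / (4608 * g * s') := by
    field_simp; ring
  rw [h3, div_le_div_iff₀ (by positivity) (by positivity)]
  have h4 : (s' : ℝ) * A ≤ 2 * L := by
    rw [le_div_iff₀ hA0] at hs'2; exact hs'2
  have h9 : 0 ≤ (r : ℝ) ^ 2 := by positivity
  calc (r : ℝ) ^ 2 * A * (4608 * g * s') = (r : ℝ) ^ 2 * (4608 * g) * (s' * A) := by ring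
    _ ≤ (r : ℝ) ^ 2 * (4608 * g) * (2 * L) := mul_le_mul_of_nonneg_left h4 (by positivity)
    _ = (r : ℝ) ^ 2 * (9216 * g * L) := by ring

/-- The gadget theorem with an explicit condition on the prime. -/
theorem gadget_explicit (g K : ℕ) (B : ℝ) (hg : 0 < g) (hK : 1 ≤ K) (hB0 : 0 ≤ B)
    (hKB : Real.exp B ≤ K) (hgB : B ≤ (g : ℝ) / 8 * Real.exp ((g : ℝ) / 2))
    (p : ℕ) (hp : p.Prime) [NeZero p] (hp5 : 5 ≤ p) (hKp : 4 * K ≤ p)
    (hpb : 32 * g * (48 * g * (K : ℝ) ^ 2 + 1) * Real.exp B * Real.exp (8 * K * g) ≤ p) :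
    GadgetProp g K p (Real.exp (-(B - Real.log 3))) := by
  intro W₁ W₂ hW
  obtain ⟨e₁, e₂, h1, h2, h3⟩ := gadget_cover (K := K) hp hp5 hg hKp hK W₁ W₂ hW
  refine ⟨e₁, e₂, h1, h2, h3.trans (mul_le_mul_of_nonneg_left ?_ (by positivity))⟩
  have hgR : (1 : ℝ) ≤ g := by exact_mod_cast hg
  have hKR : (1 : ℝ) ≤ K := by exact_mod_cast hK
  have hpR : (0 : ℝ) < p := by exact_mod_cast hp.pos
  set f : ℝ := Real.exp (-(4 * K * g)) with hf
  have hf0 : 0 < f := Real.exp_pos _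
  have hf1 : f ≤ 1 := Real.exp_le_one_iff.mpr (by have : (0 : ℝ) ≤ 4 * K * g := by positivity
                                                  linarith)
  have hff : Real.exp (8 * K * g) = 1 / (f * f) := by
    rw [hf, ← Real.exp_add, one_div, ← Real.exp_neg]
    congr 1; ring
  have hEB : 1 ≤ Real.exp B := Real.one_le_exp hB0
  have hQ : (1 : ℝ) ≤ 48 * g * (K : ℝ) ^ 2 + 1 := by
    have : (0 : ℝ) ≤ 48 * g * (K : ℝ) ^ 2 := by positivity
    linarith
  -- p f^2 is large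
  have hpf : 32 * g * (48 * g * (K : ℝ) ^ 2 + 1) * Real.exp B ≤ p * (f * f) := by
    rw [hff, mul_one_div, div_le_iff₀ (by positivity)] at hpb
    exact hpb
  set v : ℝ := Real.exp (24 * g * (K : ℝ) ^ 2 / p) - 1 + 1 / (p * f) with hv
  have hsm : 24 * g * (K : ℝ) ^ 2 / p ≤ 1 := by
    rw [div_le_one hpR]
    have h4 : (p : ℝ) * (f * f) ≤ p * 1 := mul_le_mul_of_nonneg_left (by nlinarith) hpR.le
    have h5 : (48 * g * (K : ℝ) ^ 2 + 1) * 1 ≤ 32 * g * (48 * g * (K : ℝ) ^ 2 + 1) * Real.exp B := by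
      have h6 : (48 * g * (K : ℝ) ^ 2 + 1) * 1 ≤ (48 * g * (K : ℝ) ^ 2 + 1) * (32 * g * Real.exp B) := by
        apply mul_le_mul_of_nonneg_left _ (by positivity)
        nlinarith
      linarith
    have h7 : (0 : ℝ) ≤ g * (K : ℝ) ^ 2 := by positivity
    nlinarith
  have hexp : Real.exp (24 * g * (K : ℝ) ^ 2 / p) - 1 ≤ 2 * (24 * g * (K : ℝ) ^ 2 / p) := by
    have h4 : (0 : ℝ) ≤ 24 * g * (K : ℝ) ^ 2 / p := by positivity
    have h5 := Real.abs_exp_sub_one_le (x := 24 * g * (K : ℝ) ^ 2 / p)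
      (by rw [abs_of_nonneg h4]; exact hsm)
    rw [abs_of_nonneg h4] at h5
    exact (le_abs_self _).trans h5
  have hvle : v ≤ (48 * g * (K : ℝ) ^ 2 + 1) / (p * f) := by
    rw [hv, add_div]
    apply add_le_add
    · refine hexp.trans ?_
      rw [show 2 * (24 * g * (K : ℝ) ^ 2 / p) = 48 * g * (K : ℝ) ^ 2 / p by ring]
      apply div_le_div_of_nonneg_left (by positivity) (by positivity)
      nlinarith
    · exact le_refl _
  have hv0 : 0 ≤ v := by
    rw [hv]
    have := Real.add_one_le_exp (24 * g * (K : ℝ) ^ 2 / p)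
    have h4 : (0 : ℝ) ≤ 24 * g * (K : ℝ) ^ 2 / p := by positivity
    have h5 : (0 : ℝ) ≤ 1 / (p * f) := by positivity
    linarith
  have hvf : v / f ≤ 1 / (32 * g * Real.exp B) := by
    rw [div_le_div_iff₀ hf0 (by positivity)]
    have h4 : v * (p * f) ≤ 48 * g * (K : ℝ) ^ 2 + 1 := by
      rw [le_div_iff₀ (by positivity)] at hvle; exact hvle
    have h5 : v * (32 * g * (48 * g * (K : ℝ) ^ 2 + 1) * Real.exp B) ≤ v * (p * (f * f)) :=
      mul_le_mul_of_nonneg_left hpf hv0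
    have h6 : v * (p * (f * f)) ≤ (48 * g * (K : ℝ) ^ 2 + 1) * f := by
      calc v * (p * (f * f)) = (v * (p * f)) * f := by ring
        _ ≤ _ := mul_le_mul_of_nonneg_right h4 hf0.le
    have h7 : (48 * g * (K : ℝ) ^ 2 + 1) * (v * (32 * g * Real.exp B)) ≤
        (48 * g * (K : ℝ) ^ 2 + 1) * (1 * f) := by
      calc _ = v * (32 * g * (48 * g * (K : ℝ) ^ 2 + 1) * Real.exp B) := by ring
        _ ≤ _ := h5.trans h6
        _ = _ := by ring
    exact le_of_mul_le_mul_left h7 (by positivity)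
  have hvB : v ≤ Real.exp (-B) / 32 := by
    have h4 : v ≤ v / f := by
      rw [le_div_iff₀ hf0]
      nlinarith
    refine (h4.trans hvf).trans ?_
    rw [Real.exp_neg, ← one_div, div_div, div_le_div_iff₀ (by positivity) (by positivity)]
    nlinarith
  have hgv : g * v / f ≤ 1 / 32 := by
    have h4 : g * v / f = g * (v / f) := by ring
    rw [h4]
    have h5 : g * (v / f) ≤ g * (1 / (32 * g * Real.exp B)) :=
      mul_le_mul_of_nonneg_left hvf (by positivity)
    refine h5.trans ?_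
    rw [mul_one_div, div_le_div_iff₀ (by positivity) (by norm_num)]
    nlinarith
  have hK' : 1 / (K : ℝ) ≤ Real.exp (-B) := by
    rw [Real.exp_neg, one_div]
    exact inv_anti₀ (Real.exp_pos _) hKB
  have hlast : Real.exp (-((g : ℝ) / 8 * Real.exp ((g : ℝ) / 2)) + g * v / f) ≤
      Real.exp (-B) * (5 / 4) := by
    rw [Real.exp_add]
    apply mul_le_mul _ _ (Real.exp_pos _).le (Real.exp_pos _).le
    · exact Real.exp_le_exp.mpr (by linarith)
    · have h4 : (0 : ℝ) ≤ g * v / f := by positivity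
      have h5 := Real.abs_exp_sub_one_le (x := g * v / f) (by rw [abs_of_nonneg h4]; linarith)
      rw [abs_of_nonneg h4] at h5
      have h6 := (le_abs_self _).trans h5
      linarith
  have hA : Real.exp (-(B - Real.log 3)) = 3 * Real.exp (-B) := by
    rw [neg_sub, Real.exp_sub, Real.exp_log (by norm_num), Real.exp_neg]
    rfl
  rw [hA]
  have hEn : 0 < Real.exp (-B) := Real.exp_pos _
  linarith

end H19RP
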