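import Mathlib
import Pool.Agent.H19.RX.Par2
import Pool.Agent.H19.RPNear

/-! The lower bound `f_r(k) >= c (r^2 / l) (m / (1 + log m))`, `l = 1 + log (k / r)`, `m = min l (loglog (r / l))`,
for all `k >= r` with `r >= 16 l`. -/

namespace H19RP

open Finset Filter

private theorem cb_y0 : ∃ y₀ : ℝ, Real.exp (Real.exp 4) ≤ y₀ ∧ ∀ y : ℝ, y₀ ≤ y →
    2 ^ 22 ≤ y ∧ 10 ^ 9 * y ^ 6 ≤ Real.exp (1 / 8 * y) := by
  have h := (isLittleO_pow_exp_pos_mul_atTop (k := 6) (b := 1 / 8) (by norm_num)).bound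
    (show (0 : ℝ) < 1 / 10 ^ 9 by norm_num)
  obtain ⟨y₁, hy₁⟩ := eventually_atTop.1 (h.and (eventually_ge_atTop (2 ^ 22 : ℝ)))
  refine ⟨max y₁ (Real.exp (Real.exp 4)), le_max_right _ _, fun y hy => ?_⟩
  obtain ⟨h1, h2⟩ := hy₁ y ((le_max_left _ _).trans hy)
  have hy0 : (0 : ℝ) ≤ y := le_trans (by norm_num) h2
  refine ⟨h2, ?_⟩
  rw [Real.norm_of_nonneg (by positivity), Real.norm_of_nonneg (Real.exp_pos _).le] at h1
  have := mul_le_mul_of_nonneg_left h1 (show (0 : ℝ) ≤ 10 ^ 9 by norm_num)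
  calc (10 : ℝ) ^ 9 * y ^ 6 ≤ 10 ^ 9 * (1 / 10 ^ 9 * Real.exp (1 / 8 * y)) := this
    _ = Real.exp (1 / 8 * y) := by ring

private theorem cb_loglog {x : ℝ} (hx : 16 ≤ x) : 1 ≤ Real.log (Real.log x) := by
  have h1 : Real.log 16 ≤ Real.log x := Real.log_le_log (by norm_num) hx
  have h2 : Real.log 16 = 4 * Real.log 2 := by
    rw [show (16 : ℝ) = 2 ^ 4 by norm_num, Real.log_pow]; norm_num
  have h3 := Real.log_two_gt_d9
  have h4 := Real.exp_one_lt_d9
  have h5 : Real.exp 1 ≤ Real.log x := by linarith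
  rw [Real.le_log_iff_exp_le (lt_of_lt_of_le (Real.exp_pos _) h5)]
  exact h5

/-- the large range -/
theorem combined_large : ∃ m₀ : ℝ, 1 ≤ m₀ ∧ ∀ r k : ℕ, 2 ≤ r → r ≤ k → ∀ l m : ℝ,
    l = 1 + Real.log (k / r) → m = min l (Real.log (Real.log (r / l))) → m₀ ≤ m → 16 * l ≤ r →
    ∃ H : Finset (Fin r → ℕ), IntersectinglyCovered k H ∧
      1 / 1200000 * ((r : ℝ) ^ 2 / l) * (m / (1 + Real.log m)) ≤ tau H := by
  obtain ⟨y₀, hy₀, hy⟩ := cb_y0
  have hy₀0 : 0 < y₀ := lt_of_lt_of_le (Real.exp_pos _) hy₀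
  refine ⟨max (Real.exp 4) (Real.log y₀), ?_, fun r k hr hrk l m hl hm hm₀ hx => ?_⟩
  · exact (Real.one_le_exp (by norm_num)).trans (le_max_left _ _)
  have hrR : (2 : ℝ) ≤ r := by exact_mod_cast hr
  have hkR : (r : ℝ) ≤ k := by exact_mod_cast hrk
  have hme : Real.exp 4 ≤ m := (le_max_left _ _).trans hm₀
  have hmy : Real.log y₀ ≤ m := (le_max_right _ _).trans hm₀
  have hm0 : 0 < m := lt_of_lt_of_le (Real.exp_pos _) hme
  have hml : m ≤ l := by rw [hm]; exact min_le_left _ _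
  have hmz : m ≤ Real.log (Real.log (r / l)) := by rw [hm]; exact min_le_right _ _
  have hlpos : 0 < l := lt_of_lt_of_le hm0 hml
  set x : ℝ := r / l with hxdef
  have hx16 : 16 ≤ x := by rw [hxdef, le_div_iff₀ hlpos]; exact hx
  have hx0 : 0 < x := by linarith
  set y : ℝ := Real.log x with hydef
  have hypos : 0 < y := Real.log_pos (by linarith)
  have hyge : y₀ ≤ y := (Real.log_le_log_iff hy₀0 hypos).1 (hmy.trans hmz)
  obtain ⟨hy22, hyexp⟩ := hy y hyge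
  have hy1 : (1 : ℝ) ≤ y := le_trans (by norm_num) hy22
  have hexpy : Real.exp y = x := Real.exp_log hx0
  have hm16 : 16 ≤ m := by
    have h5 : Real.exp 4 = Real.exp 1 ^ 4 := by rw [← Real.exp_nat_mul]; norm_num
    have h6 : (2 : ℝ) ≤ Real.exp 1 := by have := Real.add_one_le_exp (1 : ℝ); linarith
    have h7 : (2 : ℝ) ^ 4 ≤ Real.exp 1 ^ 4 := pow_le_pow_left₀ (by norm_num) h6 4
    linarith
  set w : ℝ := Real.log m with hwdef
  have hw4 : 4 ≤ w := by
    have := Real.log_le_log (Real.exp_pos _) hme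
    rwa [Real.log_exp] at this
  have hexpw : Real.exp w = m := Real.exp_log hm0
  -- parameters
  set q : ℝ := Real.exp (m / 4) with hq
  have hq0 : 0 < q := Real.exp_pos _
  have hq4 : q ^ 4 ≤ y := by
    have h1 : q ^ 4 = Real.exp m := by
      rw [hq, ← Real.exp_nat_mul]; congr 1; push_cast; ring
    rw [h1]
    calc Real.exp m ≤ Real.exp (Real.log y) := Real.exp_le_exp.mpr hmz
      _ = y := Real.exp_log hypos
  have hq1 : 1 ≤ q := Real.one_le_exp (by positivity)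
  set g : ℕ := ⌈2 * w⌉₊ + 2 with hg
  set K : ℕ := ⌈q⌉₊ with hK
  have hgpos : 0 < g := by omega
  have hgle : (g : ℝ) ≤ 4 * w := by
    rw [hg]; push_cast
    have := Nat.ceil_lt_add_one (show 0 ≤ 2 * w by positivity)
    linarith
  have hgge : 2 * w + 2 ≤ g := by
    rw [hg]; push_cast
    have := Nat.le_ceil (2 * w)
    linarith
  have hKge : q ≤ K := Nat.le_ceil _
  have hK1 : 1 ≤ K := by
    have : (0 : ℝ) < K := lt_of_lt_of_le hq0 hKge
    exact_mod_cast this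
  have hKle : (K : ℝ) ≤ 2 * q := by
    have := Nat.ceil_lt_add_one hq0.le
    rw [hK]; linarith
  -- w ≤ 4 q
  have hwq : w ≤ 4 * q := by
    have h1 : w ≤ m := by
      have := Real.add_one_le_exp w
      rw [hexpw] at this; linarith
    have h2 : m / 4 ≤ q := by
      have := Real.add_one_le_exp (m / 4)
      linarith
    linarith
  have hgq : (g : ℝ) ≤ 16 * q := by linarith
  have hgB : m / 4 ≤ (g : ℝ) / 8 * Real.exp ((g : ℝ) / 2) := by
    have h1 : m ≤ Real.exp ((g : ℝ) / 2) := by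
      rw [← hexpw]
      exact Real.exp_le_exp.mpr (by linarith)
    have h2 : (10 : ℝ) ≤ g := by linarith
    have h3 : (1 : ℝ) / 4 ≤ (g : ℝ) / 8 := by linarith
    calc m / 4 = 1 / 4 * m := by ring
      _ ≤ (g : ℝ) / 8 * Real.exp ((g : ℝ) / 2) := mul_le_mul h3 h1 hm0.le (by positivity)
  set A : ℝ := m / 4 - Real.log 3 with hA
  have hlog3 : Real.log 3 ≤ 2 := by
    have := Real.log_le_sub_one_of_pos (show (0 : ℝ) < 3 by norm_num)
    linarith
  have hlog30 : 0 ≤ Real.log 3 := Real.log_nonneg (by norm_num)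
  have hA8 : m / 8 ≤ A := by rw [hA]; linarith
  have hA0 : 0 < A := by linarith
  -- the bound on the prime
  set Φ : ℝ := 5 + 4 * K + 32 * g * (48 * g * (K : ℝ) ^ 2 + 1) * q * Real.exp (8 * K * g) with hΦ
  have hgR : (0 : ℝ) < g := by exact_mod_cast hgpos
  have hKR : (0 : ℝ) < K := by exact_mod_cast hK1
  have hΦ0 : 0 ≤ Φ := by positivity
  set P₀ : ℕ := ⌈Φ⌉₊ with hP₀
  -- upper bound for Φ
  have hqy : q ≤ y := by
    refine le_trans ?_ hq4
    calc q = q ^ 1 := (pow_one q).symm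
      _ ≤ q ^ 4 := pow_le_pow_right₀ hq1 (by norm_num)
  have hq2y : q ^ 2 ≤ y := le_trans (pow_le_pow_right₀ hq1 (by norm_num)) hq4
  have hq2s : q ^ 2 * 2048 ≤ y := by
    by_cases h1 : (2048 : ℝ) ≤ q ^ 2
    · calc q ^ 2 * 2048 ≤ q ^ 2 * q ^ 2 := mul_le_mul_of_nonneg_left h1 (by positivity)
        _ = q ^ 4 := by ring
        _ ≤ y := hq4
    · push Not at h1
      have h2 : q ^ 2 * 2048 ≤ 2048 * 2048 := mul_le_mul_of_nonneg_right h1.le (by norm_num)
      have h3 : (2048 : ℝ) * 2048 = 2 ^ 22 := by norm_num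
      linarith
  have hKg : 8 * (K : ℝ) * g ≤ 1 / 8 * y := by
    have h1 : (K : ℝ) * g ≤ 2 * q * (16 * q) := mul_le_mul hKle hgq hgR.le (by positivity)
    have h2 : 2 * q * (16 * q) = 32 * q ^ 2 := by ring
    have h3 : 8 * (K : ℝ) * g = 8 * (K * g) := by ring
    linarith
  have hexpKg : Real.exp (8 * K * g) ≤ Real.exp (1 / 8 * y) := Real.exp_le_exp.mpr hKg
  have hK2 : (K : ℝ) ^ 2 ≤ 4 * y := by
    have h1 : (K : ℝ) ^ 2 ≤ (2 * q) ^ 2 := pow_le_pow_left₀ hKR.le hKle 2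
    have h2 : (2 * q) ^ 2 = 4 * q ^ 2 := by ring
    linarith
  have hgy : (g : ℝ) ≤ 16 * y := by linarith
  have hpoly : 32 * (g : ℝ) * (48 * g * (K : ℝ) ^ 2 + 1) * q ≤ 10 ^ 8 * y ^ 5 := by
    have h1 : 48 * (g : ℝ) * (K : ℝ) ^ 2 ≤ 48 * (16 * y) * (4 * y) :=
      mul_le_mul (by linarith) hK2 (by positivity) (by positivity)
    have h2 : 48 * (g : ℝ) * (K : ℝ) ^ 2 + 1 ≤ 3073 * y ^ 2 := by
      have h3 : 48 * (16 * y) * (4 * y) = 3072 * y ^ 2 := by ring
      have h4 : 1 ≤ y ^ 2 := one_le_pow₀ hy1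
      linarith
    have h3 : 32 * (g : ℝ) * (48 * g * (K : ℝ) ^ 2 + 1) ≤ (32 * (16 * y)) * (3073 * y ^ 2) :=
      mul_le_mul (by linarith) h2 (by positivity) (by positivity)
    have h4 : 32 * (g : ℝ) * (48 * g * (K : ℝ) ^ 2 + 1) * q ≤ (32 * (16 * y)) * (3073 * y ^ 2) * y :=
      mul_le_mul h3 hqy hq0.le (by positivity)
    have h5 : (32 * (16 * y)) * (3073 * y ^ 2) * y = 1573376 * y ^ 4 := by ring
    have h6 : y ^ 4 ≤ y ^ 5 := pow_le_pow_right₀ hy1 (by norm_num)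
    have h7 : 0 ≤ y ^ 5 := by positivity
    linarith
  have hE0 : 0 < Real.exp (1 / 8 * y) := Real.exp_pos _
  have hΦle : Φ ≤ 5 + 8 * y + 10 ^ 8 * y ^ 5 * Real.exp (1 / 8 * y) := by
    rw [hΦ]
    have h1 : 32 * (g : ℝ) * (48 * g * (K : ℝ) ^ 2 + 1) * q * Real.exp (8 * K * g) ≤
        10 ^ 8 * y ^ 5 * Real.exp (1 / 8 * y) :=
      mul_le_mul hpoly hexpKg (Real.exp_pos _).le (by positivity)
    have h2 : 4 * (K : ℝ) ≤ 8 * y := by linarith
    linarith
  have hxbig : 64 * (g : ℝ) * (P₀ + 5) ≤ x := by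
    have h1 : (P₀ : ℝ) ≤ Φ + 1 := (Nat.ceil_lt_add_one hΦ0).le
    have hy5 : (1 : ℝ) ≤ y ^ 5 := one_le_pow₀ hy1
    have hyy5 : y ≤ y ^ 5 := by
      calc y = y ^ 1 := (pow_one y).symm
        _ ≤ y ^ 5 := pow_le_pow_right₀ hy1 (by norm_num)
    have hE1 : 1 ≤ Real.exp (1 / 8 * y) := Real.one_le_exp (by positivity)
    have h2 : (P₀ : ℝ) + 5 ≤ 2 * 10 ^ 8 * y ^ 5 * Real.exp (1 / 8 * y) := by
      have h3 : 11 + 8 * y ≤ 19 * y ^ 5 := by linarith
      have h4 : 19 * y ^ 5 ≤ 10 ^ 8 * y ^ 5 * Real.exp (1 / 8 * y) := by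
        have h5 : 19 * y ^ 5 * 1 ≤ 10 ^ 8 * y ^ 5 * Real.exp (1 / 8 * y) :=
          mul_le_mul (by linarith) hE1 (by norm_num) (by positivity)
        linarith
      linarith
    have h3 : 64 * (g : ℝ) * (P₀ + 5) ≤ (64 * (16 * y)) * (2 * 10 ^ 8 * y ^ 5 * Real.exp (1 / 8 * y)) :=
      mul_le_mul (by linarith) h2 (by positivity) (by positivity)
    have h4 : (64 * (16 * y)) * (2 * 10 ^ 8 * y ^ 5 * Real.exp (1 / 8 * y)) =
        204800 * (10 ^ 6 * y ^ 6) * Real.exp (1 / 8 * y) := by ring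
    have h5 : 204800 * (10 ^ 6 * y ^ 6) ≤ 10 ^ 9 * y ^ 6 * (10 ^ 9 * y ^ 6) := by
      have h6 : (1 : ℝ) ≤ y ^ 6 := one_le_pow₀ hy1
      have h7 : y ^ 6 * 1 ≤ y ^ 6 * y ^ 6 := mul_le_mul_of_nonneg_left h6 (by positivity)
      calc 204800 * (10 ^ 6 * y ^ 6) ≤ 10 ^ 18 * (y ^ 6 * y ^ 6) := by linarith
        _ = 10 ^ 9 * y ^ 6 * (10 ^ 9 * y ^ 6) := by ring
    have h6 : 10 ^ 9 * y ^ 6 * (10 ^ 9 * y ^ 6) ≤ Real.exp (1 / 8 * y) * Real.exp (1 / 8 * y) :=
      mul_le_mul hyexp hyexp (by positivity) hE0.le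
    have h7 : Real.exp (1 / 8 * y) * Real.exp (1 / 8 * y) * Real.exp (1 / 8 * y) ≤ x := by
      rw [← Real.exp_add, ← Real.exp_add, ← hexpy]
      exact Real.exp_le_exp.mpr (by linarith)
    calc 64 * (g : ℝ) * (P₀ + 5) ≤ 204800 * (10 ^ 6 * y ^ 6) * Real.exp (1 / 8 * y) := by
          rw [← h4]; exact h3
      _ ≤ Real.exp (1 / 8 * y) * Real.exp (1 / 8 * y) * Real.exp (1 / 8 * y) :=
          mul_le_mul_of_nonneg_right (h5.trans h6) hE0.le
      _ ≤ x := h7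
  obtain ⟨H, hH, htau⟩ := lower_param2 g K P₀ A hgpos hK1 hA0 r k hr hrk (by rw [← hl]; linarith) (by
      rw [← hl]
      have h1 : 64 * (g : ℝ) * (P₀ + 5) * l ≤ x * l := mul_le_mul_of_nonneg_right hxbig hlpos.le
      have h2 : x * l = r := by rw [hxdef]; exact div_mul_cancel₀ _ hlpos.ne'
      have h3 : (1 : ℝ) * r ≤ A * r := mul_le_mul_of_nonneg_right (by linarith) (by linarith)
      linarith)
    (by
      intro p hp hprime _
      have hpR : Φ ≤ p := by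
        have h1 : Φ ≤ P₀ := Nat.le_ceil _
        have h2 : (P₀ : ℝ) ≤ p := by exact_mod_cast hp
        linarith
      have hnn : (0 : ℝ) ≤ 32 * g * (48 * g * (K : ℝ) ^ 2 + 1) * q * Real.exp (8 * K * g) := by
        positivity
      apply gadget_explicit g K (m / 4) hgpos hK1 (by positivity) hKge hgB p hprime
      · have h1 : (5 : ℝ) ≤ p := by linarith
        exact_mod_cast h1
      · have h1 : (4 : ℝ) * K ≤ p := by linarith
        exact_mod_cast h1
      · linarith)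
  refine ⟨H, hH, le_trans ?_ htau⟩
  rw [← hl]
  have h1 : (r : ℝ) ^ 2 * (m / 8) / (36864 * (4 * w) * l) ≤ (r : ℝ) ^ 2 * A / (36864 * g * l) := by
    apply div_le_div₀ (by positivity)
    · exact mul_le_mul_of_nonneg_left hA8 (by positivity)
    · positivity
    · exact mul_le_mul_of_nonneg_right (by linarith) hlpos.le
  refine le_trans ?_ h1
  have hw0 : 0 < w := by linarith
  have h2 : 1 / 1200000 * ((r : ℝ) ^ 2 / l) * (m / (1 + w)) = (r : ℝ) ^ 2 * m / (1200000 * l * (1 + w)) := by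
    field_simp
  have h3 : (r : ℝ) ^ 2 * (m / 8) / (36864 * (4 * w) * l) = (r : ℝ) ^ 2 * m / (1179648 * w * l) := by
    field_simp; ring
  rw [h2, h3]
  apply div_le_div_of_nonneg_left (by positivity) (by positivity)
  have h4 : 0 < w * l := mul_pos hw0 hlpos
  calc 1179648 * w * l = 1179648 * (w * l) := by ring
    _ ≤ 1200000 * (w * l) + 1200000 * l := by linarith
    _ = 1200000 * l * (1 + w) := by ring

/-- the combined lower bound -/
theorem combined_lower : ∃ c : ℝ, 0 < c ∧ ∀ r k : ℕ, 2 ≤ r → r ≤ k → ∀ l m : ℝ,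
    l = 1 + Real.log (k / r) → 16 * l ≤ r → m = min l (Real.log (Real.log (r / l))) →
    ∃ H : Finset (Fin r → ℕ), IntersectinglyCovered k H ∧
      c * ((r : ℝ) ^ 2 / l) * (m / (1 + Real.log m)) ≤ tau H := by
  obtain ⟨m₀, hm₀, h⟩ := combined_large
  refine ⟨min (1 / 1200000) (1 / (1024 * m₀)), lt_min (by norm_num) (by positivity),
    fun r k hr hrk l m hl hx hm => ?_⟩
  have hrR : (2 : ℝ) ≤ r := by exact_mod_cast hr
  have hkr1 : (1 : ℝ) ≤ (k : ℝ) / r := by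
    rw [le_div_iff₀ (by positivity)]
    have : (r : ℝ) ≤ k := by exact_mod_cast hrk
    linarith
  have hl1 : 1 ≤ l := by
    have := Real.log_nonneg hkr1
    linarith
  have hlpos : 0 < l := by linarith
  have hx16 : (16 : ℝ) ≤ r / l := by rw [le_div_iff₀ hlpos]; exact hx
  have hm1 : 1 ≤ m := by
    rw [hm]
    exact le_min hl1 (cb_loglog hx16)
  have hlm : 0 ≤ Real.log m := Real.log_nonneg hm1
  have hrl : 0 ≤ (r : ℝ) ^ 2 / l := by positivity
  have hg0 : 0 ≤ m / (1 + Real.log m) := div_nonneg (by linarith) (by linarith)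
  by_cases hmm : m₀ ≤ m
  · obtain ⟨H, hH, ht⟩ := h r k hr hrk l m hl hm hmm hx
    refine ⟨H, hH, le_trans ?_ ht⟩
    apply mul_le_mul_of_nonneg_right _ hg0
    exact mul_le_mul_of_nonneg_right (min_le_left _ _) hrl
  · push Not at hmm
    obtain ⟨H, hH, ht⟩ := near_main r k hr hrk
    refine ⟨H, hH, le_trans ?_ ht⟩
    rw [← hl]
    have h1 : m / (1 + Real.log m) ≤ m₀ := by
      rw [div_le_iff₀ (by linarith)]
      calc m ≤ m₀ * 1 := by linarith
        _ ≤ m₀ * (1 + Real.log m) := mul_le_mul_of_nonneg_left (by linarith) (by linarith)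
    have h2 : min (1 / 1200000) (1 / (1024 * m₀)) * ((r : ℝ) ^ 2 / l) * (m / (1 + Real.log m)) ≤
        1 / (1024 * m₀) * ((r : ℝ) ^ 2 / l) * m₀ := by
      apply mul_le_mul _ h1 hg0 (by positivity)
      exact mul_le_mul_of_nonneg_right (min_le_right _ _) hrl
    refine h2.trans (le_of_eq ?_)
    have : m₀ ≠ 0 := by positivity
    field_simp

end H19RP
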