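import Mathlib
import Pool.Agent.H19.RX.Par
import Pool.Agent.H19.RPMainLower
import Pool.Agent.H19.RPNear

/-! The explicit lower bound `f_r(k) >= c (r^2 / log k) (loglog x / (1 + logloglog x))`, `x = r / log k >= 16`. -/

namespace H19RP

open Finset Filter

/-- `loglog x / (1 + logloglog x)` -/
noncomputable def gain (x : ℝ) : ℝ := Real.log (Real.log x) / (1 + Real.log (Real.log (Real.log x)))

theorem exists_y0 : ∃ y₀ : ℝ, Real.exp (Real.exp 4) ≤ y₀ ∧ ∀ y : ℝ, y₀ ≤ y →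
    2 ^ 22 ≤ y ∧ 10 ^ 9 * y ^ 6 ≤ Real.exp (1 / 8 * y) := by
  have h := (isLittleO_pow_exp_pos_mul_atTop (k := 6) (b := 1 / 8) (by norm_num)).bound
    (show (0 : ℝ) < 1 / 10 ^ 9 by norm_num)
  obtain ⟨y₁, hy₁⟩ := eventually_atTop.1 (h.and (eventually_ge_atTop (2 ^ 22 : ℝ)))
  refine ⟨max y₁ (Real.exp (Real.exp 4)), le_max_right _ _, fun y hy => ?_⟩
  obtain ⟨h1, h2⟩ := hy₁ y ((le_max_left _ _).trans hy)
  have hy0 : (0 : ℝ) ≤ y := le_trans (by norm_num) h2
  refine ⟨h2, ?_⟩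
  rw [Real.norm_of_nonneg (by positivity), Real.norm_of_nonneg (Real.exp_pos _).le] at h1
  have := mul_le_mul_of_nonneg_left h1 (show (0 : ℝ) ≤ 10 ^ 9 by norm_num)
  calc (10 : ℝ) ^ 9 * y ^ 6 ≤ 10 ^ 9 * (1 / 10 ^ 9 * Real.exp (1 / 8 * y)) := this
    _ = Real.exp (1 / 8 * y) := by ring

/-- the large range -/
theorem explicit_large : ∃ x₀ : ℝ, 16 ≤ x₀ ∧ ∀ r k : ℕ, 2 ≤ r → r ≤ k → x₀ * Real.log k ≤ r →
    ∃ H : Finset (Fin r → ℕ), IntersectinglyCovered k H ∧
      1 / 300000 * ((r : ℝ) ^ 2 / Real.log k) * gain (r / Real.log k) ≤ tau H := by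
  obtain ⟨y₀, hy₀, hy⟩ := exists_y0
  have hx16 : (16 : ℝ) ≤ Real.exp y₀ := by
    have h1 := Real.add_one_le_exp y₀
    have h2 := Real.add_one_le_exp (Real.exp 4)
    have h3 := Real.add_one_le_exp (4 : ℝ)
    have h4 : (31 : ℝ) ≤ y₀ + 1 ∨ True := Or.inr trivial
    have h5 : Real.exp 4 ≥ Real.exp 1 ^ 4 := by rw [← Real.exp_nat_mul]; norm_num
    have h6 : (2 : ℝ) ≤ Real.exp 1 := by have := Real.add_one_le_exp (1 : ℝ); linarith
    have h7 : (2 : ℝ) ^ 4 ≤ Real.exp 1 ^ 4 := pow_le_pow_left₀ (by norm_num) h6 4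
    linarith
  refine ⟨Real.exp y₀, hx16, fun r k hr hrk hx => ?_⟩
  have hrR : (2 : ℝ) ≤ r := by exact_mod_cast hr
  have hkR : (r : ℝ) ≤ k := by exact_mod_cast hrk
  set L : ℝ := Real.log k with hL
  have hlog2 : (1 / 2 : ℝ) ≤ Real.log 2 := by have := Real.log_two_gt_d9; linarith
  have hL2 : (1 / 2 : ℝ) ≤ L := hlog2.trans (Real.log_le_log (by norm_num) (by linarith))
  have hLpos : 0 < L := by linarith
  set x : ℝ := r / L with hxdef
  have hxge : Real.exp y₀ ≤ x := by rw [hxdef, le_div_iff₀ hLpos]; exact hx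
  have hx0 : 0 < x := lt_of_lt_of_le (Real.exp_pos _) hxge
  set y : ℝ := Real.log x with hydef
  have hyge : y₀ ≤ y := by
    have := Real.log_le_log (Real.exp_pos _) hxge
    rwa [Real.log_exp] at this
  obtain ⟨hy22, hyexp⟩ := hy y hyge
  have hy1 : (1 : ℝ) ≤ y := le_trans (by norm_num) hy22
  have hy0 : 0 < y := by linarith
  have hexpy : Real.exp y = x := Real.exp_log hx0
  set z : ℝ := Real.log y with hzdef
  have hzge : Real.exp 4 ≤ z := by
    have := Real.log_le_log (Real.exp_pos _) (hy₀.trans hyge)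
    rwa [Real.log_exp] at this
  have hz0 : 0 < z := lt_of_lt_of_le (Real.exp_pos _) hzge
  have hz16 : 16 ≤ z := by
    have h5 : Real.exp 4 = Real.exp 1 ^ 4 := by rw [← Real.exp_nat_mul]; norm_num
    have h6 : (2 : ℝ) ≤ Real.exp 1 := by have := Real.add_one_le_exp (1 : ℝ); linarith
    have h7 : (2 : ℝ) ^ 4 ≤ Real.exp 1 ^ 4 := pow_le_pow_left₀ (by norm_num) h6 4
    linarith
  have hexpz : Real.exp z = y := Real.exp_log hy0
  set w : ℝ := Real.log z with hwdef
  have hw4 : 4 ≤ w := by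
    have := Real.log_le_log (Real.exp_pos _) hzge
    rwa [Real.log_exp] at this
  have hexpw : Real.exp w = z := Real.exp_log hz0
  -- parameters
  set q : ℝ := Real.exp (z / 4) with hq
  have hq0 : 0 < q := Real.exp_pos _
  have hq4 : q ^ 4 = y := by
    rw [hq, ← Real.exp_nat_mul, ← hexpz]; congr 1; push_cast; ring
  have hq1 : 1 ≤ q := Real.one_le_exp (by positivity)
  set g : ℕ := ⌈2 * w⌉₊ + 2 with hg
  set K : ℕ := ⌈q⌉₊ with hK
  have hgpos : 0 < g := by omega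
  have hgle : (g : ℝ) ≤ 4 * w := by
    rw [hg]; push_cast
    have := Nat.ceil_lt_add_one (show 0 ≤ 2 * w by positivity)
    linarith
  have hgge : 2 * w + 2 ≤ g := by
    rw [hg]; push_cast
    have := Nat.le_ceil (2 * w)
    linarith
  have hKge : q ≤ K := Nat.le_ceil _
  have hK1 : 1 ≤ K := by
    have : (0 : ℝ) < K := lt_of_lt_of_le hq0 hKge
    exact_mod_cast this
  have hKle : (K : ℝ) ≤ 2 * q := by
    have := Nat.ceil_lt_add_one hq0.le
    rw [hK]; linarith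
  -- w ≤ 4 q
  have hwq : w ≤ 4 * q := by
    have h1 : w ≤ z := by
      have := Real.add_one_le_exp w
      rw [hexpw] at this; linarith
    have h2 : z / 4 ≤ q := by
      have := Real.add_one_le_exp (z / 4)
      linarith
    linarith
  have hgq : (g : ℝ) ≤ 16 * q := by linarith
  have hgB : z / 4 ≤ (g : ℝ) / 8 * Real.exp ((g : ℝ) / 2) := by
    have h1 : z ≤ Real.exp ((g : ℝ) / 2) := by
      rw [← hexpw]
      exact Real.exp_le_exp.mpr (by linarith)
    have h2 : (10 : ℝ) ≤ g := by linarith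
    have h3 : (1 : ℝ) / 4 ≤ (g : ℝ) / 8 := by linarith
    have h4 : 0 < Real.exp ((g : ℝ) / 2) := Real.exp_pos _
    nlinarith
  set A : ℝ := z / 4 - Real.log 3 with hA
  have hlog3 : Real.log 3 ≤ 2 := by
    have := Real.log_le_sub_one_of_pos (show (0 : ℝ) < 3 by norm_num)
    linarith
  have hlog30 : 0 ≤ Real.log 3 := Real.log_nonneg (by norm_num)
  have hA8 : z / 8 ≤ A := by rw [hA]; linarith
  have hA0 : 0 < A := by linarith
  -- the bound on the prime
  set Φ : ℝ := 5 + 4 * K + 32 * g * (48 * g * (K : ℝ) ^ 2 + 1) * q * Real.exp (8 * K * g) with hΦ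
  have hgR : (0 : ℝ) < g := by exact_mod_cast hgpos
  have hKR : (0 : ℝ) < K := by exact_mod_cast hK1
  have hΦ0 : 0 ≤ Φ := by positivity
  set P₀ : ℕ := ⌈Φ⌉₊ with hP₀
  -- upper bound for Φ
  have hqy : q ≤ y := by
    rw [← hq4]
    calc q = q ^ 1 := (pow_one q).symm
      _ ≤ q ^ 4 := pow_le_pow_right₀ hq1 (by norm_num)
  have hq2y : q ^ 2 ≤ y := by
    rw [← hq4]
    exact pow_le_pow_right₀ hq1 (by norm_num)
  have hq2s : q ^ 2 * 2048 ≤ y := by
    have h1 : (2048 : ℝ) ≤ q ^ 2 := by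
      by_contra hcon
      push Not at hcon
      have h2 : (q ^ 2) ^ 2 < 2048 ^ 2 := pow_lt_pow_left₀ hcon (by positivity) (by norm_num)
      have h3 : (q ^ 2) ^ 2 = y := by rw [← hq4]; ring
      rw [h3] at h2
      norm_num at h2 hy22
      linarith
    calc q ^ 2 * 2048 ≤ q ^ 2 * q ^ 2 := mul_le_mul_of_nonneg_left h1 (by positivity)
      _ = y := by rw [← hq4]; ring
  have hKg : 8 * (K : ℝ) * g ≤ 1 / 8 * y := by
    have h1 : (K : ℝ) * g ≤ 2 * q * (16 * q) := mul_le_mul hKle hgq hgR.le (by positivity)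
    have h2 : 2 * q * (16 * q) = 32 * q ^ 2 := by ring
    nlinarith
  have hexpKg : Real.exp (8 * K * g) ≤ Real.exp (1 / 8 * y) := Real.exp_le_exp.mpr hKg
  have hK2 : (K : ℝ) ^ 2 ≤ 4 * y := by
    have h1 : (K : ℝ) ^ 2 ≤ (2 * q) ^ 2 := pow_le_pow_left₀ hKR.le hKle 2
    nlinarith
  have hgy : (g : ℝ) ≤ 16 * y := by linarith
  have hpoly : 32 * (g : ℝ) * (48 * g * (K : ℝ) ^ 2 + 1) * q ≤ 10 ^ 8 * y ^ 5 := by
    have h1 : 48 * (g : ℝ) * (K : ℝ) ^ 2 ≤ 48 * (16 * y) * (4 * y) :=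
      mul_le_mul (by linarith) hK2 (by positivity) (by positivity)
    have h2 : 48 * (g : ℝ) * (K : ℝ) ^ 2 + 1 ≤ 3073 * y ^ 2 := by nlinarith
    have h3 : 32 * (g : ℝ) * (48 * g * (K : ℝ) ^ 2 + 1) ≤ (32 * (16 * y)) * (3073 * y ^ 2) :=
      mul_le_mul (by linarith) h2 (by positivity) (by positivity)
    have h4 : 32 * (g : ℝ) * (48 * g * (K : ℝ) ^ 2 + 1) * q ≤ (32 * (16 * y)) * (3073 * y ^ 2) * y :=
      mul_le_mul h3 hqy hq0.le (by positivity)
    have h5 : (32 * (16 * y)) * (3073 * y ^ 2) * y = 1573376 * y ^ 4 := by ring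
    have h6 : y ^ 4 ≤ y ^ 5 := pow_le_pow_right₀ hy1 (by norm_num)
    have h7 : 0 ≤ y ^ 5 := by positivity
    linarith
  have hE0 : 0 < Real.exp (1 / 8 * y) := Real.exp_pos _
  have hΦle : Φ ≤ 5 + 8 * y + 10 ^ 8 * y ^ 5 * Real.exp (1 / 8 * y) := by
    rw [hΦ]
    have h1 : 32 * (g : ℝ) * (48 * g * (K : ℝ) ^ 2 + 1) * q * Real.exp (8 * K * g) ≤
        10 ^ 8 * y ^ 5 * Real.exp (1 / 8 * y) :=
      mul_le_mul hpoly hexpKg (Real.exp_pos _).le (by positivity)
    have h2 : 4 * (K : ℝ) ≤ 8 * y := by linarith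
    linarith
  have hxbig : 32 * (g : ℝ) * (P₀ + 5) ≤ x := by
    have h1 : (P₀ : ℝ) ≤ Φ + 1 := (Nat.ceil_lt_add_one hΦ0).le
    have hy5 : (1 : ℝ) ≤ y ^ 5 := one_le_pow₀ hy1
    have hyy5 : y ≤ y ^ 5 := by
      calc y = y ^ 1 := (pow_one y).symm
        _ ≤ y ^ 5 := pow_le_pow_right₀ hy1 (by norm_num)
    have hE1 : 1 ≤ Real.exp (1 / 8 * y) := Real.one_le_exp (by positivity)
    have h2 : (P₀ : ℝ) + 5 ≤ 2 * 10 ^ 8 * y ^ 5 * Real.exp (1 / 8 * y) := by
      have h3 : 11 + 8 * y ≤ 19 * y ^ 5 := by linarith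
      have h4 : 19 * y ^ 5 ≤ 10 ^ 8 * y ^ 5 * Real.exp (1 / 8 * y) := by
        have h5 : 19 * y ^ 5 * 1 ≤ 10 ^ 8 * y ^ 5 * Real.exp (1 / 8 * y) :=
          mul_le_mul (by linarith) hE1 (by norm_num) (by positivity)
        linarith
      linarith
    have h3 : 32 * (g : ℝ) * (P₀ + 5) ≤ (32 * (16 * y)) * (2 * 10 ^ 8 * y ^ 5 * Real.exp (1 / 8 * y)) :=
      mul_le_mul (by linarith) h2 (by positivity) (by positivity)
    have h4 : (32 * (16 * y)) * (2 * 10 ^ 8 * y ^ 5 * Real.exp (1 / 8 * y)) =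
        102400 * (10 ^ 6 * y ^ 6) * Real.exp (1 / 8 * y) := by ring
    have h5 : 102400 * (10 ^ 6 * y ^ 6) ≤ 10 ^ 9 * y ^ 6 * (10 ^ 9 * y ^ 6) := by
      have h6 : (1 : ℝ) ≤ y ^ 6 := one_le_pow₀ hy1
      nlinarith
    have h6 : 10 ^ 9 * y ^ 6 * (10 ^ 9 * y ^ 6) ≤ Real.exp (1 / 8 * y) * Real.exp (1 / 8 * y) :=
      mul_le_mul hyexp hyexp (by positivity) hE0.le
    have h7 : Real.exp (1 / 8 * y) * Real.exp (1 / 8 * y) * Real.exp (1 / 8 * y) ≤ x := by
      rw [← Real.exp_add, ← Real.exp_add, ← hexpy]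
      exact Real.exp_le_exp.mpr (by linarith)
    calc 32 * (g : ℝ) * (P₀ + 5) ≤ 102400 * (10 ^ 6 * y ^ 6) * Real.exp (1 / 8 * y) := by
          rw [← h4]; exact h3
      _ ≤ Real.exp (1 / 8 * y) * Real.exp (1 / 8 * y) * Real.exp (1 / 8 * y) :=
          mul_le_mul_of_nonneg_right (h5.trans h6) hE0.le
      _ ≤ x := h7
  -- A ≤ L
  have hAL : A ≤ L := by
    have h1 : x ≤ 2 * r := by
      rw [hxdef, div_le_iff₀ hLpos]; nlinarith
    have h2 : z ≤ y - 1 := by
      have := Real.log_le_sub_one_of_pos hy0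
      exact this
    have h3 : y ≤ Real.log (2 * r) := Real.log_le_log hx0 h1
    have h4 : Real.log (2 * r) = Real.log 2 + Real.log r := Real.log_mul (by norm_num) (by positivity)
    have h5 : Real.log 2 ≤ 1 := by
      have := Real.log_le_sub_one_of_pos (show (0 : ℝ) < 2 by norm_num)
      linarith
    have h6 : Real.log r ≤ L := Real.log_le_log (by linarith) hkR
    rw [hA]; linarith
  obtain ⟨H, hH, htau⟩ := lower_param g K P₀ A hgpos hK1 hA0 r k hr hrk hAL (by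
      have h1 : 32 * (g : ℝ) * (P₀ + 5) * L ≤ x * L := mul_le_mul_of_nonneg_right hxbig hLpos.le
      have h2 : x * L = r := by rw [hxdef]; exact div_mul_cancel₀ _ hLpos.ne'
      have h3 : (1 : ℝ) * r ≤ A * r := mul_le_mul_of_nonneg_right (by linarith) (by linarith)
      linarith)
    (by
      intro p hp hprime _
      have hpR : Φ ≤ p := by
        have h1 : Φ ≤ P₀ := Nat.le_ceil _
        have h2 : (P₀ : ℝ) ≤ p := by exact_mod_cast hp
        linarith
      have hnn : (0 : ℝ) ≤ 32 * g * (48 * g * (K : ℝ) ^ 2 + 1) * q * Real.exp (8 * K * g) := by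
        positivity
      apply gadget_explicit g K (z / 4) hgpos hK1 (by positivity) hKge hgB p hprime
      · have h1 : (5 : ℝ) ≤ p := by linarith
        exact_mod_cast h1
      · have h1 : (4 : ℝ) * K ≤ p := by linarith
        exact_mod_cast h1
      · linarith)
  refine ⟨H, hH, le_trans ?_ htau⟩
  have hgain : gain x = z / (1 + w) := rfl
  rw [hgain]
  have h1 : (r : ℝ) ^ 2 * (z / 8) / (9216 * (4 * w) * L) ≤ (r : ℝ) ^ 2 * A / (9216 * g * L) := by
    apply div_le_div₀ (by positivity)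
    · exact mul_le_mul_of_nonneg_left hA8 (by positivity)
    · positivity
    · exact mul_le_mul_of_nonneg_right (by linarith) hLpos.le
  refine le_trans ?_ h1
  have hw0 : 0 < w := by linarith
  have h2 : 1 / 300000 * ((r : ℝ) ^ 2 / L) * (z / (1 + w)) = (r : ℝ) ^ 2 * z / (300000 * L * (1 + w)) := by
    field_simp
  have h3 : (r : ℝ) ^ 2 * (z / 8) / (9216 * (4 * w) * L) = (r : ℝ) ^ 2 * z / (294912 * w * L) := by
    field_simp; ring
  rw [h2, h3]
  apply div_le_div_of_nonneg_left (by positivity) (by positivity)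
  nlinarith

theorem loglog_ge {x : ℝ} (hx : 16 ≤ x) : 1 ≤ Real.log (Real.log x) := by
  have h1 : Real.log 16 ≤ Real.log x := Real.log_le_log (by norm_num) hx
  have h2 : Real.log 16 = 4 * Real.log 2 := by
    rw [show (16 : ℝ) = 2 ^ 4 by norm_num, Real.log_pow]; norm_num
  have h3 := Real.log_two_gt_d9
  have h4 := Real.exp_one_lt_d9
  have h5 : Real.exp 1 ≤ Real.log x := by linarith
  rw [Real.le_log_iff_exp_le (lt_of_lt_of_le (Real.exp_pos _) h5)]
  exact h5

theorem gain_le {x : ℝ} (hx : 16 ≤ x) : gain x ≤ Real.log (Real.log x) ∧ 0 ≤ gain x := by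
  have h1 := loglog_ge hx
  have h2 : 0 ≤ Real.log (Real.log (Real.log x)) := Real.log_nonneg h1
  constructor
  · unfold gain
    rw [div_le_iff₀ (by linarith)]
    nlinarith
  · unfold gain
    exact div_nonneg (by linarith) (by linarith)

theorem explicit_lower : ∃ c : ℝ, 0 < c ∧ ∀ r k : ℕ, 2 ≤ r → 2 ≤ k → 16 * Real.log k ≤ r →
    ∃ H : Finset (Fin r → ℕ), IntersectinglyCovered k H ∧
      c * ((r : ℝ) ^ 2 / Real.log k) * gain (r / Real.log k) ≤ tau H := by
  obtain ⟨x₀, hx₀, h⟩ := explicit_large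
  set G : ℝ := Real.log (Real.log x₀) with hG
  have hG1 : 1 ≤ G := loglog_ge hx₀
  refine ⟨min (1 / 300000) (1 / (3072 * G)), lt_min (by norm_num) (by positivity), fun r k hr hk hx => ?_⟩
  have hrR : (2 : ℝ) ≤ r := by exact_mod_cast hr
  have hk2 : (2 : ℝ) ≤ k := by exact_mod_cast hk
  set L : ℝ := Real.log k with hL
  have hL2 : (1 / 2 : ℝ) ≤ L := by
    have h1 := Real.log_two_gt_d9
    have h2 : Real.log 2 ≤ L := Real.log_le_log (by norm_num) hk2
    linarith
  have hLpos : 0 < L := by linarith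
  have hx16 : (16 : ℝ) ≤ r / L := by rw [le_div_iff₀ hLpos]; exact hx
  obtain ⟨hg1, hg0⟩ := gain_le hx16
  have hrL : 0 ≤ (r : ℝ) ^ 2 / L := by positivity
  by_cases hrk : r ≤ k
  · by_cases hxx : x₀ * L ≤ r
    · obtain ⟨H, hH, ht⟩ := h r k hr hrk hxx
      refine ⟨H, hH, le_trans ?_ ht⟩
      apply mul_le_mul_of_nonneg_right _ hg0
      exact mul_le_mul_of_nonneg_right (min_le_left _ _) hrL
    · obtain ⟨H, hH, ht⟩ := near_main r k hr hrk
      refine ⟨H, hH, le_trans ?_ ht⟩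
      have hxle : (r : ℝ) / L ≤ x₀ := by
        rw [div_le_iff₀ hLpos]; exact (not_le.1 hxx).le
      have hgG : gain (r / L) ≤ G := by
        refine hg1.trans ?_
        have h1 : Real.log (r / L) ≤ Real.log x₀ := Real.log_le_log (by linarith) hxle
        have h2 : 0 < Real.log (r / L) := Real.log_pos (by linarith)
        exact Real.log_le_log h2 h1
      have h1 : min (1 / 300000) (1 / (3072 * G)) * ((r : ℝ) ^ 2 / L) * gain (r / L) ≤
          1 / (3072 * G) * ((r : ℝ) ^ 2 / L) * G := by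
        apply mul_le_mul _ hgG hg0 (by positivity)
        exact mul_le_mul_of_nonneg_right (min_le_right _ _) hrL
      refine h1.trans ?_
      have h2 : 1 / (3072 * G) * ((r : ℝ) ^ 2 / L) * G = (r : ℝ) ^ 2 / (3072 * L) := by
        have : G ≠ 0 := by positivity
        field_simp
      rw [h2]
      have hkr : Real.log ((k : ℝ) / r) ≤ L := by
        apply Real.log_le_log (by positivity)
        rw [div_le_iff₀ (by positivity)]
        nlinarith
      have hkr1 : (1 : ℝ) ≤ (k : ℝ) / r := by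
        rw [le_div_iff₀ (by positivity)]
        have : (r : ℝ) ≤ k := by exact_mod_cast hrk
        linarith
      have hkr0 : 0 ≤ Real.log ((k : ℝ) / r) := Real.log_nonneg hkr1
      rw [div_le_div_iff₀ (by positivity) (by positivity)]
      have h3 : 0 ≤ (r : ℝ) ^ 2 := by positivity
      have h4 : (r : ℝ) ^ 2 * (1 + Real.log ((k : ℝ) / r)) ≤ (r : ℝ) ^ 2 * (3 * L) :=
        mul_le_mul_of_nonneg_left (by linarith) h3
      nlinarith
  · obtain ⟨H, hH, ht⟩ := small_k r k ⌈min (1 / 300000) (1 / (3072 * G)) * ((r : ℝ) ^ 2 / L) *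
      gain (r / L)⌉₊ hr (by omega)
    refine ⟨H, hH, (Nat.le_ceil _).trans ?_⟩
    exact_mod_cast ht

end H19RP
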